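import Pool.Agent.BEH.Stmts

/-!
# Row POW of the squad BEH (problem MP_be01ff_an): a lower bound for the integral of a power
-/

set_option autoImplicit false

namespace Pool.Agent.BEH.H65

open Set Filter Topology MeasureTheory
open scoped InnerProductSpace ENNReal
open Pool.Agent.BE01 Pool.Agent.BEL Pool.Agent.BEH

theorem pow : PowStmt := by
  intro d Ω p B V u hD hB hu hV
  haveI hfin : IsFiniteMeasure (mu Ω) := by
    refine ⟨?_⟩
    rw [mu, Measure.restrict_apply_univ]
    exact hD.2.1.measure_lt_top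
  obtain ⟨m, hm⟩ : ∃ m : ℝ, m = volume.real Ω := ⟨_, rfl⟩
  have hm2 : (mu Ω).real univ = m := by
    rw [hm, measureReal_def, measureReal_def, mu, Measure.restrict_apply_univ]
  have hm0 : 0 ≤ m := by
    rw [hm]
    exact measureReal_nonneg
  have hI2 : Integrable (fun y => u y ^ 2) (mu Ω) := (Lp.memLp u).integrable_sq
  have hIp : Integrable (fun y => u y ^ (2 * p + 2)) (mu Ω) := by
    refine Integrable.of_bound (((Lp.aestronglyMeasurable u)).pow (2 * p + 2)) (|B| ^ (2 * p + 2)) ?_
    filter_upwards [hB] with y hy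
    show ‖u y ^ (2 * p + 2)‖ ≤ |B| ^ (2 * p + 2)
    rw [norm_pow]
    refine pow_le_pow_left₀ (norm_nonneg _) ?_ _
    rw [Real.norm_eq_abs]
    exact hy.trans (le_abs_self B)
  have hint2 : ∫ y, u y ^ 2 ∂(mu Ω) = 1 := by
    have h1 : inner ℝ u u = ∫ y, inner ℝ (u y) (u y) ∂(mu Ω) := L2.inner_def u u
    rw [real_inner_self_eq_norm_sq, hu, one_pow] at h1
    rw [h1]
    refine integral_congr_ae (Eventually.of_forall fun y => ?_)
    show u y ^ 2 = inner ℝ (u y) (u y)
    rw [real_inner_self_eq_norm_sq, Real.norm_eq_abs, sq_abs]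
  have hpt : ∀ y, 1 + ((p : ℝ) + 1) * (m * u y ^ 2 - 1) ≤ m ^ (p + 1) * u y ^ (2 * p + 2) := by
    intro y
    have h0 : 0 ≤ m * u y ^ 2 := mul_nonneg hm0 (sq_nonneg _)
    have h1 := one_add_mul_le_pow (a := m * u y ^ 2 - 1) (by linarith) (p + 1)
    have h2 : (1 + (m * u y ^ 2 - 1)) ^ (p + 1) = m ^ (p + 1) * u y ^ (2 * p + 2) := by
      have h3 : 1 + (m * u y ^ 2 - 1) = m * u y ^ 2 := by ring
      rw [h3, mul_pow, ← pow_mul]
      congr 2
    rw [h2] at h1
    push_cast at h1
    exact h1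
  have i1 : Integrable (fun y => m * u y ^ 2) (mu Ω) := hI2.const_mul m
  have i2 : Integrable (fun y => m * u y ^ 2 - 1) (mu Ω) := i1.sub (integrable_const _)
  have i3 : Integrable (fun y => ((p : ℝ) + 1) * (m * u y ^ 2 - 1)) (mu Ω) := i2.const_mul _
  have hmain : m ≤ m ^ (p + 1) * ∫ y, u y ^ (2 * p + 2) ∂(mu Ω) := by
    have h1 : ∫ y, (1 + ((p : ℝ) + 1) * (m * u y ^ 2 - 1)) ∂(mu Ω) ≤
        ∫ y, m ^ (p + 1) * u y ^ (2 * p + 2) ∂(mu Ω) := by
      refine integral_mono ?_ (hIp.const_mul _) hpt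
      exact (integrable_const _).add i3
    rw [integral_const_mul] at h1
    have h2 : ∫ y, (1 + ((p : ℝ) + 1) * (m * u y ^ 2 - 1)) ∂(mu Ω) = m := by
      rw [integral_add (integrable_const _) i3, integral_const_mul,
        integral_sub i1 (integrable_const _), integral_const_mul, hint2,
        integral_const, hm2]
      simp
    rw [h2] at h1
    exact h1
  have hmpos : 0 < m := by
    rcases eq_or_lt_of_le hm0 with h | h
    · exfalso
      have h1 : (mu Ω) univ = 0 := by
        have h2 : (mu Ω).real univ = 0 := by rw [hm2, ← h]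
        rw [measureReal_def, ENNReal.toReal_eq_zero_iff] at h2
        rcases h2 with h2 | h2
        · exact h2
        · exact absurd h2 (measure_ne_top _ _)
      have h3 : mu Ω = 0 := Measure.measure_univ_eq_zero.mp h1
      have h4 : ∫ y, u y ^ 2 ∂(mu Ω) = 0 := by
        have h5 : ∀ g : En d → ℝ, ∫ y, g y ∂(mu Ω) = 0 := by
          intro g
          have h6 : ∀ ν : Measure (En d), ν = 0 → ∫ y, g y ∂ν = 0 := by
            intro ν hν
            rw [hν]
            exact integral_zero_measure _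
          exact h6 _ h3
        exact h5 _
      rw [hint2] at h4
      exact one_ne_zero h4
    · exact h
  have hnn : 0 ≤ ∫ y, u y ^ (2 * p + 2) ∂(mu Ω) := by
    refine integral_nonneg fun y => ?_
    have h : u y ^ (2 * p + 2) = (u y ^ (p + 1)) ^ 2 := by
      rw [← pow_mul]
      congr 1
      ring
    show 0 ≤ u y ^ (2 * p + 2)
    rw [h]
    exact sq_nonneg _
  have h1 : 1 ≤ m ^ p * ∫ y, u y ^ (2 * p + 2) ∂(mu Ω) := by
    have h2 : m * 1 ≤ m * (m ^ p * ∫ y, u y ^ (2 * p + 2) ∂(mu Ω)) := by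
      rw [mul_one, ← mul_assoc, ← pow_succ']
      exact hmain
    exact le_of_mul_le_mul_left h2 hmpos
  refine h1.trans (mul_le_mul_of_nonneg_right ?_ hnn)
  refine pow_le_pow_left₀ hm0 ?_ p
  rw [hm]
  exact hV

end Pool.Agent.BEH.H65
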