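import Pool.Agent.BEH.Stmts

/-!
# Row DYA of the squad BEH (problem MP_be01ff_an): dyadic shells in the plane
-/

set_option autoImplicit false

namespace Pool.Agent.BEH.H65

open Set Filter Topology MeasureTheory
open scoped InnerProductSpace ENNReal
open Pool.Agent.BE01 Pool.Agent.BEL Pool.Agent.BEH

theorem dya_meas (x : En 2) (r s : ℝ) : MeasurableSet {y : En 2 | r < ‖y - x‖ ∧ ‖y - x‖ ≤ s} := by
  have h1 : Measurable fun y : En 2 => ‖y - x‖ := (continuous_id.sub continuous_const).norm.measurable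
  exact (measurableSet_lt measurable_const h1).inter (measurableSet_le h1 measurable_const)

theorem dya_fin (x : En 2) (r s : ℝ) :
    (volume : Measure (En 2)) {y : En 2 | r < ‖y - x‖ ∧ ‖y - x‖ ≤ s} ≠ ⊤ := by
  refine ne_top_of_le_ne_top (measure_closedBall_lt_top (x := x) (r := s)).ne (measure_mono ?_)
  intro y hy
  rw [Metric.mem_closedBall, dist_eq_norm]
  exact hy.2

theorem dya_int {f : En 2 → ℝ} {B : ℝ} (hf : Bm B f) (x : En 2) (r s : ℝ) (hr : 0 < r) :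
    IntegrableOn (fun y => |f y - f x| / ‖y - x‖ ^ 2) {y : En 2 | r < ‖y - x‖ ∧ ‖y - x‖ ≤ s} := by
  obtain ⟨hm, hB⟩ := hf
  have h1 : Measurable fun y : En 2 => ‖y - x‖ := (continuous_id.sub continuous_const).norm.measurable
  have h2 : Measurable fun y : En 2 => |f y - f x| := by
    have h3 : Measurable fun y : En 2 => f y - f x := hm.sub measurable_const
    exact continuous_abs.measurable.comp h3
  refine Measure.integrableOn_of_bounded (M := 2 * B / r ^ 2) (dya_fin x r s)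
    (h2.div (h1.pow_const 2)).aestronglyMeasurable ?_
  refine (ae_restrict_iff' (dya_meas x r s)).mpr (Eventually.of_forall fun y hy => ?_)
  have h4 : |f y - f x| ≤ 2 * B := by
    calc |f y - f x| ≤ |f y| + |f x| := abs_sub _ _
      _ ≤ B + B := add_le_add (hB y) (hB x)
      _ = 2 * B := by ring
  show ‖|f y - f x| / ‖y - x‖ ^ 2‖ ≤ 2 * B / r ^ 2
  rw [norm_div, norm_pow, norm_norm, Real.norm_eq_abs, abs_abs]
  have h5 : r ^ 2 ≤ ‖y - x‖ ^ 2 := pow_le_pow_left₀ hr.le hy.1.le 2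
  have h6 : 0 ≤ 2 * B := (abs_nonneg _).trans h4
  exact div_le_div₀ h6 h4 (by positivity) h5

theorem dya_intF {f : En 2 → ℝ} {B : ℝ} (hf : Bm B f) (x : En 2) (s : ℝ) :
    IntegrableOn (fun y => |f y - f x|) (Metric.closedBall x s) := by
  obtain ⟨hm, hB⟩ := hf
  have h2 : Measurable fun y : En 2 => |f y - f x| := by
    have h3 : Measurable fun y : En 2 => f y - f x := hm.sub measurable_const
    exact continuous_abs.measurable.comp h3
  refine Measure.integrableOn_of_bounded (M := 2 * B) (measure_closedBall_lt_top (x := x) (r := s)).ne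
    h2.aestronglyMeasurable ?_
  refine Eventually.of_forall fun y => ?_
  show ‖|f y - f x|‖ ≤ 2 * B
  rw [Real.norm_eq_abs, abs_abs]
  calc |f y - f x| ≤ |f y| + |f x| := abs_sub _ _
    _ ≤ B + B := add_le_add (hB y) (hB x)
    _ = 2 * B := by ring

/-- one shell -/
theorem dya_one {f : En 2 → ℝ} {B : ℝ} (hf : Bm B f) (x : En 2) (κ s : ℝ) (hs : 0 < s)
    (h : ∫ y in Metric.closedBall x s, |f y - f x| ≤ κ * s ^ 2) :
    ∫ y in {y : En 2 | s / 2 < ‖y - x‖ ∧ ‖y - x‖ ≤ s}, |f y - f x| / ‖y - x‖ ^ 2 ≤ 4 * κ := by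
  have hsub : {y : En 2 | s / 2 < ‖y - x‖ ∧ ‖y - x‖ ≤ s} ⊆ Metric.closedBall x s := by
    intro y hy
    rw [Metric.mem_closedBall, dist_eq_norm]
    exact hy.2
  have hF := dya_intF hf x s
  have hF2 := hF.mono_set hsub
  have h1 : ∫ y in {y : En 2 | s / 2 < ‖y - x‖ ∧ ‖y - x‖ ≤ s}, |f y - f x| / ‖y - x‖ ^ 2 ≤
      ∫ y in {y : En 2 | s / 2 < ‖y - x‖ ∧ ‖y - x‖ ≤ s}, 4 / s ^ 2 * |f y - f x| := by
    refine setIntegral_mono_on (dya_int hf x (s / 2) s (by linarith)) (hF2.const_mul _)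
      (dya_meas x _ _) ?_
    intro y hy
    have h2 : (s / 2) ^ 2 ≤ ‖y - x‖ ^ 2 := pow_le_pow_left₀ (by linarith) hy.1.le 2
    have h3 : 0 < (s / 2) ^ 2 := by positivity
    calc |f y - f x| / ‖y - x‖ ^ 2 ≤ |f y - f x| / (s / 2) ^ 2 :=
          div_le_div_of_nonneg_left (abs_nonneg _) h3 h2
      _ = 4 / s ^ 2 * |f y - f x| := by
          field_simp
          ring
  rw [integral_const_mul] at h1
  have h4 : ∫ y in {y : En 2 | s / 2 < ‖y - x‖ ∧ ‖y - x‖ ≤ s}, |f y - f x| ≤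
      ∫ y in Metric.closedBall x s, |f y - f x| :=
    setIntegral_mono_set hF (Eventually.of_forall fun y => abs_nonneg _)
      (HasSubset.Subset.eventuallyLE hsub)
  have h5 : 0 ≤ 4 / s ^ 2 := by positivity
  calc _ ≤ 4 / s ^ 2 * ∫ y in {y : En 2 | s / 2 < ‖y - x‖ ∧ ‖y - x‖ ≤ s}, |f y - f x| := h1
    _ ≤ 4 / s ^ 2 * (κ * s ^ 2) := mul_le_mul_of_nonneg_left (h4.trans h) h5
    _ = 4 * κ := by
        field_simp

theorem dya_shells {f : En 2 → ℝ} {B : ℝ} (hf : Bm B f) (x : En 2) (κ a b₀ : ℝ) (ha : 0 < a)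
    (h : ∀ ρ : ℝ, 0 < ρ → ρ ≤ b₀ → ∫ y in Metric.closedBall x ρ, |f y - f x| ≤ κ * ρ ^ 2) :
    ∀ (K : ℕ) (b : ℝ), 0 < b → b ≤ b₀ → b ≤ 2 ^ K * a →
      ∫ y in {y : En 2 | a < ‖y - x‖ ∧ ‖y - x‖ ≤ b}, |f y - f x| / ‖y - x‖ ^ 2 ≤ 4 * κ * K := by
  intro K
  induction K with
  | zero =>
    intro b hb hb0 hba
    have h1 : {y : En 2 | a < ‖y - x‖ ∧ ‖y - x‖ ≤ b} = ∅ := by
      ext y
      constructor
      · intro hy
        have h2 := hy.1
        have h3 := hy.2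
        rw [pow_zero, one_mul] at hba
        exact absurd (lt_of_lt_of_le h2 (h3.trans hba)) (lt_irrefl _)
      · intro hy
        exact absurd hy (notMem_empty y)
    rw [h1, setIntegral_empty, Nat.cast_zero, mul_zero]
  | succ K ih =>
    intro b hb hb0 hba
    have h1 := ih (b / 2) (by linarith) (by linarith) (by
      rw [pow_succ] at hba
      linarith)
    have h2 := dya_one hf x κ b hb (h b hb hb0)
    have hsub : {y : En 2 | a < ‖y - x‖ ∧ ‖y - x‖ ≤ b} ⊆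
        {y : En 2 | a < ‖y - x‖ ∧ ‖y - x‖ ≤ b / 2} ∪ {y : En 2 | b / 2 < ‖y - x‖ ∧ ‖y - x‖ ≤ b} := by
      intro y hy
      rcases le_or_gt (‖y - x‖) (b / 2) with h3 | h3
      · exact Or.inl ⟨hy.1, h3⟩
      · exact Or.inr ⟨h3, hy.2⟩
    have i1 := dya_int hf x a (b / 2) ha
    have i2 := dya_int hf x (b / 2) b (by linarith)
    have hdisj : Disjoint {y : En 2 | a < ‖y - x‖ ∧ ‖y - x‖ ≤ b / 2}
        {y : En 2 | b / 2 < ‖y - x‖ ∧ ‖y - x‖ ≤ b} := by
      rw [Set.disjoint_left]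
      intro y h3 h4
      exact absurd (lt_of_lt_of_le h4.1 h3.2) (lt_irrefl _)
    have h3 : ∫ y in {y : En 2 | a < ‖y - x‖ ∧ ‖y - x‖ ≤ b}, |f y - f x| / ‖y - x‖ ^ 2 ≤
        ∫ y in {y : En 2 | a < ‖y - x‖ ∧ ‖y - x‖ ≤ b / 2} ∪
          {y : En 2 | b / 2 < ‖y - x‖ ∧ ‖y - x‖ ≤ b}, |f y - f x| / ‖y - x‖ ^ 2 :=
      setIntegral_mono_set (i1.union i2) (Eventually.of_forall fun y => by
        show (0 : ℝ) ≤ |f y - f x| / ‖y - x‖ ^ 2
        positivity) (HasSubset.Subset.eventuallyLE hsub)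
    rw [setIntegral_union hdisj (dya_meas x _ _) i1 i2] at h3
    calc _ ≤ _ := h3
      _ ≤ 4 * κ * K + 4 * κ := add_le_add h1 h2
      _ = 4 * κ * ((K + 1 : ℕ) : ℝ) := by push_cast; ring

theorem dya : DyaStmt := by
  intro f B x κ a b hf ha hab h
  have hb : 0 < b := ha.trans hab
  have hκ : 0 ≤ κ := by
    have h1 := h b hb le_rfl
    have h2 : 0 ≤ ∫ y in Metric.closedBall x b, |f y - f x| :=
      integral_nonneg fun y => abs_nonneg _
    have h3 : 0 ≤ κ * b ^ 2 := h2.trans h1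
    exact nonneg_of_mul_nonneg_left h3 (by positivity)
  have hl2 : 0 < Real.log 2 := Real.log_pos (by norm_num)
  have hba : 1 < b / a := by rwa [one_lt_div ha]
  have hlog : 0 ≤ Real.log (b / a) / Real.log 2 := div_nonneg (Real.log_nonneg hba.le) hl2.le
  obtain ⟨K, hK⟩ : ∃ K : ℕ, K = ⌈Real.log (b / a) / Real.log 2⌉₊ := ⟨_, rfl⟩
  have hK1 : Real.log (b / a) / Real.log 2 ≤ K := by
    rw [hK]
    exact Nat.le_ceil _
  have hK2 : (K : ℝ) ≤ Real.log (b / a) / Real.log 2 + 1 := by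
    rw [hK]
    exact (Nat.ceil_lt_add_one hlog).le
  have hK3 : b ≤ 2 ^ K * a := by
    rw [div_le_iff₀ hl2] at hK1
    have h1 : b / a ≤ 2 ^ K := by
      rw [← Real.log_le_log_iff (by linarith) (by positivity), Real.log_pow]
      exact hK1
    rwa [div_le_iff₀ ha] at h1
  have h1 := dya_shells hf x κ a b ha h K b hb le_rfl hK3
  exact h1.trans (mul_le_mul_of_nonneg_left hK2 (by linarith))

end Pool.Agent.BEH.H65
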